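import Pool.Agent.Helper18.FF3.Stmts
import Pool.Agent.Helper22.TW.Stmts

set_option autoImplicit false

/-! Module DES: descent of powers up to constants. -/

namespace Pool.Agent.Helper18.FF3

open Polynomial Pool.Agent.Helper14.BSC Pool.Agent.Helper60.FF

theorem des_mp {F A : Type} [Field F] [Field A] (ι : F →+* A) (P : F[X]) :
    mp ι (algebraMap F[X] (RatFunc F) P) = algebraMap A[X] (RatFunc A) (P.map ι) := by
  have h1 := RatFunc.map_apply_div (Polynomial.mapRingHom ι)
    (nonZeroDivisors_le_comap_nonZeroDivisors_of_injective _ (Polynomial.map_injective ι ι.injective))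
    P 1
  rw [mp, RatFunc.coe_mapRingHom_eq_coe_map]
  simpa using h1

theorem st_DES (hN : Pool.Agent.Helper22.TW.ST_NPW) : ST_DES := by
  intro F A _ _ _ _ ι hal m hm h hh hbz
  obtain ⟨b, z, hbz⟩ := hbz
  obtain ⟨M, rfl⟩ : ∃ M, m = M + 1 := ⟨m - 1, by omega⟩
  let _ : Algebra F A := ι.toAlgebra
  have hmap : algebraMap F A = ι := rfl
  set d : F[X] := h.denom with hd
  have hd0 : d ≠ 0 := RatFunc.denom_ne_zero h
  set H : F[X] := h.num * d ^ M with hH
  have hH0 : H ≠ 0 := mul_ne_zero (RatFunc.num_ne_zero hh) (pow_ne_zero _ hd0)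
  have hdr : algebraMap F[X] (RatFunc F) d ≠ 0 := by
    simpa using hd0
  have e1 : algebraMap F[X] (RatFunc F) H = h * (algebraMap F[X] (RatFunc F) d) ^ (M + 1) := by
    rw [hH, map_mul, map_pow]
    have := RatFunc.num_div_denom h
    rw [div_eq_iff hdr] at this
    rw [this]
    ring
  have e2 : algebraMap A[X] (RatFunc A) (H.map ι) =
      RatFunc.C b * (z * algebraMap A[X] (RatFunc A) (d.map ι)) ^ (M + 1) := by
    rw [← des_mp, e1, map_mul, map_pow, des_mp, hbz]
    ring
  set w : RatFunc A := z * algebraMap A[X] (RatFunc A) (d.map ι) with hw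
  have hwd : w.denom ≠ 0 := RatFunc.denom_ne_zero w
  have hwdr : algebraMap A[X] (RatFunc A) w.denom ≠ 0 := by simpa using hwd
  have e3 : H.map ι * w.denom ^ (M + 1) = C b * w.num ^ (M + 1) := by
    apply RatFunc.algebraMap_injective A
    rw [map_mul, map_pow, map_mul, map_pow, e2]
    have := RatFunc.num_div_denom w
    rw [div_eq_iff hwdr] at this
    rw [this]
    rw [RatFunc.algebraMap_C]
    ring
  have hHm0 : H.map ι ≠ 0 := (Polynomial.map_ne_zero_iff ι.injective).mpr hH0
  have hl0 : H.map ι * w.denom ^ (M + 1) ≠ 0 := mul_ne_zero hHm0 (pow_ne_zero _ hwd)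
  have hr0 : C b * w.num ^ (M + 1) ≠ 0 := e3 ▸ hl0
  have hb0 : b ≠ 0 := by
    rintro rfl
    simp at hr0
  have hn0 : w.num ≠ 0 := by
    intro h0
    rw [h0] at hr0
    simp at hr0
  obtain ⟨γ, Q, hγ, hQ⟩ := hN F A (M + 1) (Nat.succ_pos M) H hH0 (by
    intro v
    rw [hmap]
    have h1 := congrArg (rootMultiplicity v) e3
    rw [rootMultiplicity_mul hl0, rootMultiplicity_mul hr0, rootMultiplicity_C, zero_add] at h1
    have h2 : ∀ (p : A[X]) (n : ℕ), p ≠ 0 → rootMultiplicity v (p ^ n) = n * rootMultiplicity v p := by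
      intro p n hp
      induction n with
      | zero => simp
      | succ n ih =>
        rw [pow_succ, rootMultiplicity_mul (mul_ne_zero (pow_ne_zero _ hp) hp), ih]
        ring
    rw [h2 _ _ hwd, h2 _ _ hn0] at h1
    exact (Nat.dvd_add_left (Dvd.intro _ rfl)).mp (h1 ▸ Dvd.intro _ rfl))
  refine ⟨γ, algebraMap F[X] (RatFunc F) Q / algebraMap F[X] (RatFunc F) d, hγ, ?_, ?_⟩
  · apply div_ne_zero _ hdr
    intro h0
    have : Q = 0 := by simpa using h0
    rw [this] at hQ
    simp at hQ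
    exact hH0 hQ
  · rw [hQ, map_mul, map_pow, RatFunc.algebraMap_C] at e1
    rw [div_pow, mul_div_assoc', e1]
    field_simp

end Pool.Agent.Helper18.FF3
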